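import Pool.Agent.TH966.KO.WEnd

/-!
# Self-avoiding words: one more step at both ends
-/

set_option autoImplicit false

namespace Pool.Agent.Zk60.SW

open Finset KN TH966.KO
open scoped Classical

theorem pos_append (u b : List Dir) : pos (u ++ b) = pos u + pos b := by
  induction u with
  | nil => simp [pos]
  | cons d u ih =>
    rw [List.cons_append, pos, pos, ih]
    abel

theorem mem_path (w : List Dir) (x : Z3) : x ∈ path w ↔ ∃ b, b <:+ w ∧ x = pos b := by
  induction w with
  | nil =>
    simp [path, pos]
  | cons d w ih =>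
    rw [path, List.mem_cons, ih]
    constructor
    · rintro (h | ⟨b, hb, h⟩)
      · exact ⟨d :: w, List.suffix_refl _, by rw [h, pos]⟩
      · exact ⟨b, hb.trans (List.suffix_cons d w), h⟩
    · rintro ⟨b, hb, h⟩
      rcases List.suffix_cons_iff.1 hb with hb | hb
      · left; rw [h, hb, pos]
      · right; exact ⟨b, hb, h⟩

/-- a word is self-avoiding iff no nonempty part of it is a loop -/
theorem saw_iff_infix (w : List Dir) : SAW w ↔ ∀ u, u ≠ [] → u <:+: w → pos u ≠ 0 := by
  induction w with
  | nil =>
    constructor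
    · intro _ u hu h
      rw [List.infix_nil] at h
      exact absurd h hu
    · intro _
      simp [SAW, path]
  | cons d w ih =>
    unfold SAW at ih ⊢
    rw [path, List.nodup_cons, ih]
    constructor
    · rintro ⟨h1, h2⟩ u hu h
      rcases List.infix_cons_iff.1 h with h | h
      · obtain ⟨b, hb⟩ := h
        intro h0
        match u, hu with
        | e :: u', _ =>
          rw [List.cons_append, List.cons.injEq] at hb
          apply h1
          rw [mem_path]
          refine ⟨b, ⟨u', hb.2⟩, ?_⟩
          have h3 : pos (d :: w) = pos (e :: u') + pos b := by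
            rw [← pos_append, List.cons_append, hb.1, hb.2]
          rw [h0, zero_add, pos] at h3
          exact h3
      · exact h2 u hu h
    · intro h
      refine ⟨fun h1 => ?_, fun u hu h2 => h u hu (h2.trans (List.suffix_cons d w).isInfix)⟩
      rw [mem_path] at h1
      obtain ⟨b, ⟨a, ha⟩, hb⟩ := h1
      refine h (d :: a) (List.cons_ne_nil _ _) ?_ ?_
      · refine (List.prefix_append (d :: a) b).isInfix.trans ?_
        rw [List.cons_append, ha]
      · have h3 : pos (d :: w) = pos (d :: a) + pos b := by
          rw [← pos_append, List.cons_append, ha]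
        rw [pos, hb] at h3
        exact (add_eq_right.1 h3.symm)

/-- the number of one-step continuations of the walk at its end point -/
noncomputable def er (w : List Dir) : ℕ := #{d : Dir | SAW (d :: w)}

/-- the number of one-step continuations of the walk at its starting point -/
noncomputable def el (w : List Dir) : ℕ := #{d : Dir | SAW (w ++ [d])}

theorem neg_vec (d : Dir) : vec d + vec (neg d) = 0 := by cases d <;> decide

theorem er_le {w : List Dir} (hw : w ≠ []) : er w ≤ 5 := by
  match w, hw with
  | e :: w, _ =>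
    unfold er
    have h1 : ({d : Dir | SAW (d :: e :: w)} : Finset Dir) ⊆ (univ : Finset Dir).erase (neg e) := by
      intro d hd
      rw [mem_filter] at hd
      rw [mem_erase]
      refine ⟨fun h => ?_, mem_univ _⟩
      have h2 := (saw_iff_infix _).1 hd.2 [d, e] (by simp) (List.prefix_append [d, e] w).isInfix
      apply h2
      rw [h]
      simp only [pos, zero_add]
      exact neg_vec e
    refine (card_le_card h1).trans ?_
    rw [card_erase_of_mem (mem_univ _), card_univ]
    exact le_of_eq (by rfl)

theorem el_le {w : List Dir} (hw : w ≠ []) : el w ≤ 5 := by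
  obtain ⟨v, e, rfl⟩ : ∃ v e, w = v ++ [e] := ⟨w.dropLast, w.getLast hw, (List.dropLast_append_getLast hw).symm⟩
  unfold el
  have h1 : ({d : Dir | SAW (v ++ [e] ++ [d])} : Finset Dir) ⊆ (univ : Finset Dir).erase (neg e) := by
    intro d hd
    rw [mem_filter] at hd
    rw [mem_erase]
    refine ⟨fun h => ?_, mem_univ _⟩
    have h2 := (saw_iff_infix _).1 hd.2 [e, d] (by simp) (by
      rw [List.append_assoc]
      exact (List.suffix_append v [e, d]).isInfix)
    apply h2
    rw [h]
    simp only [pos, zero_add]
    rw [add_comm]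
    exact neg_vec e
  refine (card_le_card h1).trans ?_
  rw [card_erase_of_mem (mem_univ _), card_univ]
  exact le_of_eq (by rfl)

theorem saw_tail {d : Dir} {w : List Dir} (h : SAW (d :: w)) : SAW w := by
  rw [saw_iff_infix] at h ⊢
  exact fun u hu h2 => h u hu (h2.trans (List.suffix_cons d w).isInfix)

theorem saw_init {d : Dir} {w : List Dir} (h : SAW (w ++ [d])) : SAW w := by
  rw [saw_iff_infix] at h ⊢
  exact fun u hu h2 => h u hu (h2.trans (List.prefix_append w [d]).isInfix)

theorem sum_er (n : ℕ) : ∑ w ∈ SS n, er w = c (n + 1) := by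
  rw [← card_SS (n + 1)]
  unfold er
  rw [← card_sigma]
  refine card_bij' (fun p _ => p.2 :: p.1) (fun v _ => ⟨v.tail, v.headD .xp⟩) ?_ ?_ ?_ ?_
  · rintro ⟨w, d⟩ h
    rw [mem_sigma, mem_SS, mem_filter] at h
    rw [mem_SS]
    exact ⟨by simp [h.1.1], h.2.2⟩
  · intro v hv
    rw [mem_SS] at hv
    match v, hv with
    | e :: v, hv =>
      rw [mem_sigma, mem_SS, mem_filter]
      exact ⟨⟨by simpa using hv.1, saw_tail hv.2⟩, mem_univ _, hv.2⟩
  · rintro ⟨w, d⟩ _
    rfl
  · intro v hv
    rw [mem_SS] at hv
    match v, hv with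
    | e :: v, hv => rfl

theorem sum_el (n : ℕ) : ∑ w ∈ SS n, el w = c (n + 1) := by
  rw [← card_SS (n + 1)]
  unfold el
  rw [← card_sigma]
  refine card_bij' (fun p _ => p.1 ++ [p.2]) (fun v _ => ⟨v.dropLast, v.getLastD .xp⟩) ?_ ?_ ?_ ?_
  · rintro ⟨w, d⟩ h
    rw [mem_sigma, mem_SS, mem_filter] at h
    rw [mem_SS]
    exact ⟨by simp [h.1.1], h.2.2⟩
  · intro v hv
    rw [mem_SS] at hv
    have hne : v ≠ [] := by
      rintro rfl
      simp at hv
    obtain ⟨v', e, rfl⟩ : ∃ v' e, v = v' ++ [e] :=
      ⟨v.dropLast, v.getLast hne, (List.dropLast_append_getLast hne).symm⟩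
    rw [mem_sigma, mem_SS, mem_filter]
    simp only [List.dropLast_concat, List.getLastD_concat]
    exact ⟨⟨by simpa using hv.1, saw_init hv.2⟩, mem_univ _, hv.2⟩
  · rintro ⟨w, d⟩ _
    simp
  · intro v hv
    rw [mem_SS] at hv
    have hne : v ≠ [] := by
      rintro rfl
      simp at hv
    obtain ⟨v', e, rfl⟩ : ∃ v' e, v = v' ++ [e] :=
      ⟨v.dropLast, v.getLast hne, (List.dropLast_append_getLast hne).symm⟩
    simp

/-- the closed words of length `n` all of whose proper parts are self-avoiding -/
noncomputable def CS (n : ℕ) : Finset (List Dir) :=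
  (W n).filter (fun w => SAW w.tail ∧ SAW w.dropLast ∧ pos w = 0)

theorem two (n : ℕ) (_hn : 1 ≤ n) : ∑ w ∈ SS n, er w * el w ≤ c (n + 2) + #(CS (n + 2)) := by
  have h1 : ∀ w, er w * el w = #(({d : Dir | SAW (d :: w)} : Finset Dir) ×ˢ
      ({d : Dir | SAW (w ++ [d])} : Finset Dir)) := fun w => (card_product _ _).symm
  simp only [h1]
  rw [← card_sigma, ← card_SS (n + 2)]
  refine le_trans ?_ (card_union_le _ _)
  refine card_le_card_of_injOn (fun p => p.2.1 :: (p.1 ++ [p.2.2])) ?_ ?_
  · rintro ⟨w, d, e⟩ h
    rw [mem_coe, mem_sigma, mem_SS, mem_product, mem_filter, mem_filter] at h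
    obtain ⟨⟨hl, hw⟩, ⟨-, hd⟩, -, he⟩ := h
    simp only at hl hw hd he
    simp only [mem_coe, mem_union, mem_SS, CS, mem_filter, mem_W]
    have hlen : (d :: (w ++ [e])).length = n + 2 := by simp [hl]
    by_cases h0 : pos (d :: (w ++ [e])) = 0
    · right
      refine ⟨hlen, he, ?_, h0⟩
      rw [← List.cons_append, List.dropLast_concat]
      exact hd
    · left
      refine ⟨hlen, ?_⟩
      rw [saw_iff_infix]
      intro u hu hinf
      rcases List.infix_cons_iff.1 hinf with h | h
      · rw [← List.cons_append] at h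
        rcases List.prefix_concat_iff.1 h with h | h
        · rw [h, List.cons_append]
          exact h0
        · exact (saw_iff_infix _).1 hd u hu h.isInfix
      · exact (saw_iff_infix _).1 he u hu h
  · rintro ⟨w, d, e⟩ _ ⟨w', d', e'⟩ _ h
    simp only [List.cons.injEq] at h
    obtain ⟨h1, h2⟩ := h
    have h3 := List.append_inj' h2 rfl
    obtain ⟨h4, h5⟩ := h3
    simp only [List.cons.injEq, and_true] at h5
    subst h1 h4 h5
    rfl

/-- the basic inequality -/
theorem basic (n : ℕ) (hn : 1 ≤ n) : 10 * c (n + 1) ≤ 25 * c n + c (n + 2) + #(CS (n + 2)) := by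
  have h1 := sum_er n
  have h2 := sum_el n
  have h3 := two n hn
  have h4 : ∀ w ∈ SS n, 5 * (er w + el w) ≤ 25 + er w * el w := by
    intro w hw
    have hne : w ≠ [] := by
      rintro rfl
      rw [mem_SS] at hw
      simp at hw
      omega
    have a := er_le hne
    have b := el_le hne
    obtain ⟨x, hx⟩ := Nat.exists_eq_add_of_le a
    obtain ⟨y, hy⟩ := Nat.exists_eq_add_of_le b
    nlinarith
  have h5 := sum_le_sum h4
  rw [← mul_sum, sum_add_distrib, sum_add_distrib, h1, h2, sum_const, card_SS, smul_eq_mul] at h5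
  omega

end Pool.Agent.Zk60.SW
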