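import Pool.Agent.Zk60.SW.A

/-!
# Closed walks, and limits
-/

set_option autoImplicit false

namespace Pool.Agent.Zk60.SW

open Finset KN TH966.KO Filter Topology
open scoped Classical

/-- closed walks with `m` steps, self-avoiding except for the common first and last point -/
def ClosedWalk (m : ℕ) (f : Fin (m + 1) → (Fin 3 → ℤ)) : Prop :=
  f 0 = 0 ∧ f (Fin.last m) = 0 ∧ (∀ i j : Fin m, f i.castSucc = f j.castSucc → i = j) ∧
    ∀ i : Fin m, ∑ j : Fin 3, |f i.succ j - f i.castSucc j| = 1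

theorem finite_closed (m : ℕ) : {f | ClosedWalk m f}.Finite := by
  refine ((W m).finite_toSet.image (wk m)).subset ?_
  rintro f ⟨h0, -, -, h1⟩
  obtain ⟨v, hlen, hv⟩ := Pool.Agent.H46R2.K3.P.eq_exists_word f h0 h1
  obtain ⟨w, rfl⟩ := BR.T_surj v
  rw [BR.T_length] at hlen
  refine ⟨w, ?_, ?_⟩
  · rw [Finset.mem_coe, mem_W]
    exact hlen
  · funext i
    exact hv i

theorem card_CS_le (m : ℕ) (hm : 1 ≤ m) : #(CS m) ≤ {f | ClosedWalk m f}.ncard := by
  rw [← Set.ncard_coe_finset]
  refine Set.ncard_le_ncard_of_injOn (wk m) ?_ ?_ (finite_closed m)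
  · intro w hw
    rw [mem_coe, CS, mem_filter, mem_W] at hw
    obtain ⟨hlen, htail, -, h0⟩ := hw
    refine ⟨?_, ?_, ?_, ?_⟩
    · simp [wk]
    · rw [wk_last hlen, h0, BR.E_zero]
    · intro i j hij
      unfold wk at hij
      rw [BR.T_pos, BR.T_pos] at hij
      have h1 := BR.E_inj hij
      rw [Fin.val_castSucc, Fin.val_castSucc, hlen] at h1
      have hi := i.isLt
      have hj := j.isLt
      have e1 : w.drop (m - i) = w.tail.drop (m - i - 1) := by
        rw [← List.drop_one, List.drop_drop]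
        congr 1
        omega
      have e2 : w.drop (m - j) = w.tail.drop (m - j - 1) := by
        rw [← List.drop_one, List.drop_drop]
        congr 1
        omega
      rw [e1, e2] at h1
      have h2 := BR.saw_inj htail (by rw [List.length_tail]; omega)
        (by rw [List.length_tail]; omega) h1
      apply Fin.ext
      omega
    · intro i
      have h1 : ∀ j, wk m w i.succ j - wk m w i.castSucc j =
          Pool.Agent.H46R2.K3.vec ((BR.T w)[(i : ℕ)]'(by rw [BR.T_length]; omega)) j := by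
        intro j
        have h2 := Pool.Agent.H46R2.K3.P.eq_pos_succ (w := BR.T w) (k := i)
          (by rw [BR.T_length]; omega)
        unfold wk
        rw [Fin.val_succ, Fin.val_castSucc, h2]
        simp
      simp only [h1]
      exact Pool.Agent.H46R2.K3.P.eq_vec_norm _
  · intro w hw w' hw' h
    rw [mem_coe, CS, mem_filter, mem_W] at hw hw'
    apply BR.T_inj
    refine Pool.Agent.H46R2.K3.P.eq_ext (n := m) (by rw [BR.T_length, hw.1])
      (by rw [BR.T_length, hw'.1]) fun k hk => ?_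
    exact congrFun h ⟨k, by omega⟩

theorem two_dvd_sub_abs (a : ℤ) : (2 : ℤ) ∣ a - |a| := by
  rcases abs_choice a with h | h
  · rw [h]; simp
  · rw [h]; exact ⟨a, by ring⟩

theorem arith {x y : ℤ} {k : ℕ} (h2 : (2 : ℤ) ∣ y - k) (h4 : (2 : ℤ) ∣ x - y - 1) :
    (2 : ℤ) ∣ x - ((k + 1 : ℕ) : ℤ) := by
  push_cast
  omega

theorem odd_empty (m : ℕ) (hm : Odd m) : {f | ClosedWalk m f} = ∅ := by
  rw [Set.eq_empty_iff_forall_notMem]
  rintro f ⟨h0, hl, -, h1⟩
  have key : ∀ k : ℕ, ∀ hk : k < m + 1, (2 : ℤ) ∣ (∑ j, f ⟨k, hk⟩ j) - k := by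
    intro k
    induction k with
    | zero =>
      intro hk
      have : f ⟨0, hk⟩ = 0 := h0
      rw [this]
      simp
    | succ k ih =>
      intro hk
      have h2 := ih (by omega)
      have h3 := h1 ⟨k, by omega⟩
      have e1 : (⟨k, by omega⟩ : Fin m).succ = ⟨k + 1, hk⟩ := rfl
      have e2 : (⟨k, by omega⟩ : Fin m).castSucc = ⟨k, by omega⟩ := rfl
      rw [e1, e2] at h3
      have h4 : (2 : ℤ) ∣ (∑ j, (f ⟨k + 1, hk⟩ j - f ⟨k, by omega⟩ j)) - 1 := by
        rw [← h3, ← Finset.sum_sub_distrib]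
        refine Finset.dvd_sum fun j _ => ?_
        exact two_dvd_sub_abs _
      rw [Finset.sum_sub_distrib] at h4
      exact arith h2 h4
  have h2 := key m (by omega)
  have e : (⟨m, by omega⟩ : Fin (m + 1)) = Fin.last m := rfl
  rw [e, hl] at h2
  simp only [Pi.zero_apply, Finset.sum_const_zero, zero_sub, dvd_neg] at h2
  obtain ⟨a, rfl⟩ := hm
  omega

/-- the ratio limit theorem -/
theorem ratio_tendsto : Tendsto (fun n : ℕ => (c (n + 2) : ℝ) / c n) atTop (𝓝 (μ ^ 2)) := by
  obtain ⟨K, hK⟩ := rates (1 / 6) (by norm_num)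
  have t1 : Tendsto (fun n : ℕ => -(K * (n : ℝ) ^ (-(1 / 3 : ℝ) + 1 / 6)) + μ ^ 2) atTop
      (𝓝 (μ ^ 2)) := by
    have := ((tendsto_rpow_neg_atTop (show (0 : ℝ) < 1 / 6 by norm_num)).comp
      tendsto_natCast_atTop_atTop).const_mul K
    have h2 := (this.neg).add_const (μ ^ 2)
    simp only [mul_zero, neg_zero, zero_add] at h2
    refine h2.congr fun n => ?_
    simp only [Function.comp_apply]
    congr 5
    norm_num
  have t2 : Tendsto (fun n : ℕ => K * (n : ℝ) ^ (-(2 / 5 : ℝ) + 1 / 6) + μ ^ 2) atTop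
      (𝓝 (μ ^ 2)) := by
    have := ((tendsto_rpow_neg_atTop (show (0 : ℝ) < 7 / 30 by norm_num)).comp
      tendsto_natCast_atTop_atTop).const_mul K
    have h2 := this.add_const (μ ^ 2)
    simp only [mul_zero, zero_add] at h2
    refine h2.congr fun n => ?_
    simp only [Function.comp_apply]
    congr 4
    norm_num
  refine tendsto_of_tendsto_of_tendsto_of_le_of_le' t1 t2 ?_ ?_
  · filter_upwards [hK] with n hn
    linarith [hn.1]
  · filter_upwards [hK] with n hn
    linarith [hn.2]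

end Pool.Agent.Zk60.SW
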